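import Mathlib
import Pool.Agent.R963.Star.Defs

/-!
# Weighted first-passage percolation on `ℤ^d`: clusters and the rate event
-/

open Set MeasureTheory ProbabilityTheory Filter Topology
open scoped ENNReal NNReal Pointwise

namespace Pool.Agent.R963.Rate

open Pool.Agent.R963.Star

variable {d : ℕ}

/-- The nearest-neighbour graph on `ℤ^d`. -/
def lattice (d : ℕ) : SimpleGraph (Fin d → ℤ) where
  Adj x y := ∑ i, |x i - y i| = 1
  symm := ⟨fun x y h => by simpa only [abs_sub_comm] using h⟩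
  loopless := ⟨fun x h => by simp at h⟩

/-- A lattice point, viewed as a point of `ℝ^d`. -/
noncomputable def toE (v : Fin d → ℤ) : E d := WithLp.toLp 2 (fun i => (v i : ℝ))

/-- The midpoint `m_e` of an edge `e`. -/
noncomputable def mid (e : Sym2 (Fin d → ℤ)) : E d :=
  Sym2.lift ⟨fun x y => (1 / 2 : ℝ) • (toE x + toE y), fun _ _ => congrArg _ (add_comm _ _)⟩ e

/-- The edge times of the weighted model: measurable, independent, `X e` exponential with rate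
`f(m_e)`, where `f(z) = |z|^α f₀(z/|z|)`. -/
structure IsEdgeTimes {Ω : Type*} [MeasurableSpace Ω] (α : ℝ) (f₀ : E d → ℝ)
    (X : (lattice d).edgeSet → Ω → ℝ) (P : Measure Ω) : Prop where
  measurable : ∀ e, Measurable (X e)
  indep : iIndepFun X P
  law : ∀ e, P.map (X e) = expMeasure (weight α f₀ (mid (e : Sym2 (Fin d → ℤ))))

/-- The passage time of a lattice path: the sum of the times of its edges. -/
noncomputable def walkTime {Ω : Type*} (X : (lattice d).edgeSet → Ω → ℝ) (ω : Ω)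
    {u v : Fin d → ℤ} (w : (lattice d).Walk u v) : ℝ≥0∞ :=
  (w.darts.map fun a => ENNReal.ofReal (X ⟨a.edge, a.edge_mem⟩ ω)).sum

/-- `T(0,v)`: the infimum of the passage times of the lattice paths from `0` to `v`. -/
noncomputable def T {Ω : Type*} (X : (lattice d).edgeSet → Ω → ℝ) (ω : Ω)
    (v : Fin d → ℤ) : ℝ≥0∞ :=
  ⨅ w : (lattice d).Walk 0 v, walkTime X ω w

/-- `A^F_t = V_t + [-1/2,1/2]^d`, where `V_t = {v : T(0,v) ≤ t}`. -/
def cluster {Ω : Type*} (X : (lattice d).edgeSet → Ω → ℝ) (ω : Ω) (t : ℝ) : Set (E d) :=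
  {z | ∃ v : Fin d → ℤ, T X ω v ≤ ENNReal.ofReal t ∧ ∀ i, |z i - v i| ≤ 1 / 2}

/-- The event `E(χ, t₀)`: for all `t ≥ t₀`,
`(1 - t^{-χ}) t^{1/(1-α)} 𝔹 ⊆ A^F_t ⊆ (1 + t^{-χ}) t^{1/(1-α)} 𝔹`. -/
def rateEvent {Ω : Type*} (μ : E d → ℝ) (α : ℝ) (f₀ : E d → ℝ)
    (X : (lattice d).edgeSet → Ω → ℝ) (χ t₀ : ℝ) : Set Ω :=
  {ω | ∀ t : ℝ, t₀ ≤ t →
    ((1 - t ^ (-χ)) * t ^ (1 / (1 - α))) • shape μ α f₀ ⊆ cluster X ω t ∧
    cluster X ω t ⊆ ((1 + t ^ (-χ)) * t ^ (1 / (1 - α))) • shape μ α f₀}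

/-- Rate `χ` holds: `t₀^s (1 - P(E(χ, t₀))) → 0` as `t₀ → ∞`, for every `s > 0`. -/
def RateHolds {Ω : Type*} [MeasurableSpace Ω] (μ : E d → ℝ) (α : ℝ) (f₀ : E d → ℝ)
    (X : (lattice d).edgeSet → Ω → ℝ) (P : Measure Ω) (χ : ℝ) : Prop :=
  ∀ s : ℝ, 0 < s →
    Tendsto (fun t₀ : ℝ => t₀ ^ s * (1 - (P (rateEvent μ α f₀ X χ t₀)).toReal)) atTop (𝓝 0)

end Pool.Agent.R963.Rate
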