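import Pool.Agent.R963.Rate.Defs
import Pool.Agent.R963.Star.Main

open Set MeasureTheory ProbabilityTheory Filter Topology
open scoped ENNReal NNReal Pointwise

namespace Pool.Agent.R963.Rate

open Pool.Agent.R963.Star

variable {d : ℕ}

/-! ### The metric `D` near a nonzero point -/

/-- `D(0,p) > 0` for `p ≠ 0`. -/
theorem D_pos (μ : Seminorm ℝ (E d)) (hμ : ∀ x, μ x = 0 → x = 0) {α : ℝ} {f₀ : E d → ℝ}
    (hf : IsAngular f₀) {p : E d} (hp : p ≠ 0) :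
    0 < D μ (weight α f₀) 0 p := by
  obtain ⟨κ, hκ0, hκ⟩ := exists_lower μ hμ
  have hpn : 0 < ‖p‖ := norm_pos_iff.2 hp
  set ε : ℝ := ‖p‖ / 2 with hε
  have hε0 : 0 < ε := by positivity
  have hne : ∀ x ∈ Metric.closedBall p ε, x ≠ 0 := by
    rintro x hx rfl
    rw [Metric.mem_closedBall, dist_eq_norm, zero_sub, norm_neg] at hx
    linarith
  have hcont : ContinuousOn (weight α f₀) (Metric.closedBall p ε) := fun x hx =>
    (weight_continuousAt hf (hne x hx)).continuousWithinAt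
  obtain ⟨x₀, hx₀, hmax⟩ := (isCompact_closedBall p ε).exists_isMaxOn
    ⟨p, Metric.mem_closedBall_self hε0.le⟩ hcont
  have hM0 : 0 < weight α f₀ x₀ := weight_pos hf (hne x₀ hx₀)
  have hm : ∀ x ∈ Metric.closedBall p ε, (weight α f₀ x₀)⁻¹ ≤ (weight α f₀ x)⁻¹ := by
    intro x hx
    exact inv_anti₀ (weight_pos hf (hne x hx)) (hmax hx)
  have key : ENNReal.ofReal ((weight α f₀ x₀)⁻¹ * (κ * ε)) ≤ D μ (weight α f₀) 0 p := by
    unfold D
    refine le_iInf₂ fun l hl => ?_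
    rcases last_visit μ hε0 hκ0 hκ (inv_pos.2 hM0).le hm l 0 hl with ⟨w, _, hle⟩ | ⟨h0, _⟩
    · exact le_trans le_add_self hle
    · exact absurd rfl (hne 0 h0)
  refine lt_of_lt_of_le ?_ key
  rw [ENNReal.ofReal_pos]
  positivity

theorem toE_apply (v : Fin d → ℤ) (i : Fin d) : toE v i = (v i : ℝ) := rfl

theorem D_nat (μ : Seminorm ℝ (E d)) {α : ℝ} (f₀ : E d → ℝ) (z : E d) {n : ℕ} (hn : 0 < n) :
    D μ (weight α f₀) 0 ((n : ℝ) • z) =
      ENNReal.ofReal ((n : ℝ) ^ (1 - α)) * D μ (weight α f₀) 0 z := by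
  have h := D_smul μ α f₀ (r := (n : ℝ)) (by exact_mod_cast hn) 0 z
  rwa [smul_zero] at h

/-- Membership in a dilate of the shape. -/
theorem mem_smul_shape (μ : Seminorm ℝ (E d)) {α : ℝ} (f₀ : E d → ℝ)
    {s : ℝ} (hs : 0 < s) (z : E d) :
    z ∈ s • shape μ α f₀ ↔ D μ (weight α f₀) 0 z ≤ ENNReal.ofReal (s ^ (1 - α)) := by
  have h1 := D_smul μ α f₀ (r := s) hs 0 (s⁻¹ • z)
  rw [smul_zero, smul_inv_smul₀ hs.ne'] at h1
  have hpos : 0 < s ^ (1 - α) := Real.rpow_pos_of_pos hs _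
  have h2 : s⁻¹ • z ∈ shape μ α f₀ ↔ D μ (weight α f₀) 0 (s⁻¹ • z) ≤ 1 := Iff.rfl
  rw [Set.mem_smul_set_iff_inv_smul_mem₀ hs.ne', h2, h1]
  have h3 : ENNReal.ofReal (s ^ (1 - α)) ≠ 0 := by simpa using hpos
  constructor
  · intro h
    calc ENNReal.ofReal (s ^ (1 - α)) * D μ (weight α f₀) 0 (s⁻¹ • z)
        ≤ ENNReal.ofReal (s ^ (1 - α)) * 1 := by gcongr
      _ = _ := mul_one _
  · intro h
    have h4 : ENNReal.ofReal (s ^ (1 - α)) * D μ (weight α f₀) 0 (s⁻¹ • z) ≤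
        ENNReal.ofReal (s ^ (1 - α)) * 1 := by rwa [mul_one]
    exact (ENNReal.mul_le_mul_iff_right h3 ENNReal.ofReal_ne_top).1 h4

/-! ### Elementary asymptotics -/

theorem ev_upper {a χ : ℝ} (hχ : 1 < χ) :
    ∀ᶠ t : ℝ in atTop, (1 + t ^ (-χ)) ^ a * t ≤ t + 1 := by
  have h1 : HasDerivAt (fun x : ℝ => (1 + x) ^ a) a 0 := by
    have h2 : HasDerivAt (fun x : ℝ => 1 + x) 1 0 := by
      simpa using (hasDerivAt_id (0 : ℝ)).const_add 1
    have h3 := h2.rpow_const (p := a) (Or.inl (by norm_num))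
    simpa using h3
  have h4 := h1.isBigO_sub
  obtain ⟨C, hC⟩ := h4.bound
  have hlim : Tendsto (fun t : ℝ => t ^ (-χ)) atTop (𝓝 0) :=
    tendsto_rpow_neg_atTop (by linarith)
  have hlim2 : Tendsto (fun t : ℝ => C * t ^ (-(χ - 1))) atTop (𝓝 (C * 0)) :=
    (tendsto_rpow_neg_atTop (by linarith)).const_mul C
  rw [mul_zero] at hlim2
  filter_upwards [hlim.eventually hC, hlim2.eventually (gt_mem_nhds (zero_lt_one)),
    eventually_gt_atTop 0] with t ht1 ht2 ht3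
  simp only [add_zero, Real.one_rpow, sub_zero, Real.norm_eq_abs] at ht1
  rw [abs_of_pos (Real.rpow_pos_of_pos ht3 (-χ))] at ht1
  have h5 := (abs_le.1 ht1).2
  have h6 : C * t ^ (-χ) * t = C * t ^ (-(χ - 1)) := by
    rw [mul_assoc]
    congr 1
    have : -(χ - 1) = -χ + 1 := by ring
    rw [this, Real.rpow_add ht3, Real.rpow_one]
  have h7 : (1 + t ^ (-χ)) ^ a * t ≤ (1 + C * t ^ (-χ)) * t := by
    gcongr
    linarith
  have h8 : (1 + C * t ^ (-χ)) * t = t + C * t ^ (-(χ - 1)) := by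
    rw [add_mul, one_mul, h6]
  linarith

theorem ev_lower {a χ : ℝ} (hχ : 1 < χ) :
    ∀ᶠ t : ℝ in atTop, 0 < 1 - t ^ (-χ) ∧ t - 1 / 2 ≤ (1 - t ^ (-χ)) ^ a * t := by
  have h1 : HasDerivAt (fun x : ℝ => (1 - x) ^ a) (-a) 0 := by
    have h2 : HasDerivAt (fun x : ℝ => 1 - x) (-1) 0 := by
      simpa using (hasDerivAt_id (0 : ℝ)).const_sub 1
    have h3 := h2.rpow_const (p := a) (Or.inl (by norm_num))
    simpa using h3
  have h4 := h1.isBigO_sub
  obtain ⟨C, hC⟩ := h4.bound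
  have hlim : Tendsto (fun t : ℝ => t ^ (-χ)) atTop (𝓝 0) :=
    tendsto_rpow_neg_atTop (by linarith)
  have hlim2 : Tendsto (fun t : ℝ => C * t ^ (-(χ - 1))) atTop (𝓝 (C * 0)) :=
    (tendsto_rpow_neg_atTop (by linarith)).const_mul C
  rw [mul_zero] at hlim2
  filter_upwards [hlim.eventually hC, hlim2.eventually (gt_mem_nhds (one_half_pos)),
    eventually_gt_atTop 0, hlim.eventually (gt_mem_nhds zero_lt_one)] with t ht1 ht2 ht3 ht4
  refine ⟨by linarith, ?_⟩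
  simp only [sub_zero, Real.one_rpow, Real.norm_eq_abs] at ht1
  rw [abs_of_pos (Real.rpow_pos_of_pos ht3 (-χ))] at ht1
  have h5 := (abs_le.1 ht1).1
  have h6 : C * t ^ (-χ) * t = C * t ^ (-(χ - 1)) := by
    rw [mul_assoc]
    congr 1
    have : -(χ - 1) = -χ + 1 := by ring
    rw [this, Real.rpow_add ht3, Real.rpow_one]
  have h7 : (1 - C * t ^ (-χ)) * t ≤ (1 - t ^ (-χ)) ^ a * t := by
    gcongr
    linarith
  have h8 : (1 - C * t ^ (-χ)) * t = t - C * t ^ (-(χ - 1)) := by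
    rw [sub_mul, one_mul, h6]
  linarith

end Pool.Agent.R963.Rate
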