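import Pool.Agent.R963.Rate.Defs

open Set MeasureTheory ProbabilityTheory Filter Topology
open scoped ENNReal NNReal Pointwise

namespace Pool.Agent.R963.Rate

open Pool.Agent.R963.Star

variable {d : ℕ} {Ω : Type*}

/-- The lattice point `n e_i`. -/
def axis (i : Fin d) (n : ℕ) : Fin d → ℤ := Pi.single i (n : ℤ)

theorem axis_zero (i : Fin d) : axis i 0 = 0 := by simp [axis]

theorem axis_adj (i : Fin d) (n : ℕ) : (lattice d).Adj (axis i n) (axis i (n + 1)) := by
  show ∑ j, |axis i n j - axis i (n + 1) j| = 1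
  rw [Finset.sum_eq_single i]
  · simp [axis]
  · intro j _ hj
    simp [axis, hj]
  · simp

theorem exists_walk (i : Fin d) (n : ℕ) : Nonempty ((lattice d).Walk 0 (axis i n)) := by
  induction n with
  | zero => rw [axis_zero]; exact ⟨SimpleGraph.Walk.nil⟩
  | succ n ih =>
    obtain ⟨w⟩ := ih
    exact ⟨w.concat (axis_adj i n)⟩

theorem toE_axis (i : Fin d) (n : ℕ) : toE (axis i n) = (n : ℝ) • toE (axis i 1) := by
  ext j
  by_cases hj : j = i
  · subst hj; simp [toE, axis]
  · simp [toE, axis, hj]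

theorem toE_axis_ne (i : Fin d) : toE (axis i 1) ≠ 0 := by
  intro h
  have := congrArg (fun z : E d => z i) h
  simp [toE, axis] at this

/-! ### Passage times of walks -/

theorem walkTime_nil (X : (lattice d).edgeSet → Ω → ℝ) (ω : Ω) (u : Fin d → ℤ) :
    walkTime X ω (SimpleGraph.Walk.nil : (lattice d).Walk u u) = 0 := by
  simp [walkTime]

theorem walkTime_cons (X : (lattice d).edgeSet → Ω → ℝ) (ω : Ω) {u v w : Fin d → ℤ}
    (h : (lattice d).Adj u v) (p : (lattice d).Walk v w) :
    walkTime X ω (SimpleGraph.Walk.cons h p) =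
      ENNReal.ofReal (X ⟨s(u, v), h⟩ ω) + walkTime X ω p := by
  simp only [walkTime, SimpleGraph.Walk.darts_cons, List.map_cons, List.sum_cons]
  rfl

theorem walkTime_ne_top (X : (lattice d).edgeSet → Ω → ℝ) (ω : Ω) {u v : Fin d → ℤ}
    (w : (lattice d).Walk u v) : walkTime X ω w ≠ ⊤ := by
  induction w with
  | nil => simp [walkTime_nil]
  | cons h p ih =>
    rw [walkTime_cons]
    exact ENNReal.add_ne_top.2 ⟨ENNReal.ofReal_ne_top, ih⟩

theorem T_axis_ne_top (X : (lattice d).edgeSet → Ω → ℝ) (ω : Ω) (i : Fin d) (n : ℕ) :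
    T X ω (axis i n) ≠ ⊤ := by
  obtain ⟨w⟩ := exists_walk i n
  exact ne_top_of_le_ne_top (walkTime_ne_top X ω w) (iInf_le _ w)

/-- The passage time to `v` from the neighbours of `0`, over the paths avoiding `0`. -/
noncomputable def R (X : (lattice d).edgeSet → Ω → ℝ) (ω : Ω) (v : Fin d → ℤ) : ℝ≥0∞ :=
  ⨅ y : {y : Fin d → ℤ // (lattice d).Adj 0 y},
    ⨅ w : {w : (lattice d).Walk y.1 v // (0 : Fin d → ℤ) ∉ w.support}, walkTime X ω w.1

theorem T_le (X : (lattice d).edgeSet → Ω → ℝ) (ω : Ω) (v : Fin d → ℤ)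
    (hX : ∀ y (h : (lattice d).Adj 0 y), X ⟨s(0, y), h⟩ ω ≤ 1) : T X ω v ≤ 1 + R X ω v := by
  unfold R
  simp_rw [ENNReal.add_iInf]
  refine le_iInf fun y => le_iInf fun w => ?_
  calc T X ω v ≤ walkTime X ω (SimpleGraph.Walk.cons y.2 w.1) := iInf_le _ _
    _ = ENNReal.ofReal (X ⟨s(0, y.1), y.2⟩ ω) + walkTime X ω w.1 := walkTime_cons _ _ _ _
    _ ≤ 1 + walkTime X ω w.1 := by
      gcongr
      rw [ENNReal.ofReal_le_one]
      exact hX y.1 y.2

theorem walk_ge (X : (lattice d).edgeSet → Ω → ℝ) (ω : Ω) {c : ℝ}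
    (hX : ∀ y (h : (lattice d).Adj 0 y), c ≤ X ⟨s(0, y), h⟩ ω) {u v : Fin d → ℤ} (hv : v ≠ 0)
    (w : (lattice d).Walk u v) :
    (0 : Fin d → ℤ) ∉ w.support ∨ ENNReal.ofReal c + R X ω v ≤ walkTime X ω w := by
  induction w with
  | nil => left; simpa using hv.symm
  | @cons u y v h p ih =>
    rcases ih hv with h1 | h1
    · by_cases hu : u = 0
      · right
        subst hu
        rw [walkTime_cons]
        have h2 : R X ω v ≤ walkTime X ω p := by
          unfold R
          exact iInf_le_of_le ⟨y, h⟩ (iInf_le_of_le ⟨p, h1⟩ le_rfl)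
        have h3 := hX y h
        gcongr
      · left
        rw [SimpleGraph.Walk.support_cons, List.mem_cons, not_or]
        exact ⟨fun h' => hu h'.symm, h1⟩
    · right
      rw [walkTime_cons]
      exact h1.trans le_add_self

theorem T_ge (X : (lattice d).edgeSet → Ω → ℝ) (ω : Ω) {c : ℝ}
    (hX : ∀ y (h : (lattice d).Adj 0 y), c ≤ X ⟨s(0, y), h⟩ ω) {v : Fin d → ℤ} (hv : v ≠ 0) :
    ENNReal.ofReal c + R X ω v ≤ T X ω v := by
  refine le_iInf fun w => ?_
  rcases walk_ge X ω hX hv w with h | h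
  · exact absurd w.start_mem_support h
  · exact h

/-! ### Countability and measurability -/

instance walk_countable (u v : Fin d → ℤ) : Countable ((lattice d).Walk u v) := by
  have : Function.Injective (fun w : (lattice d).Walk u v => w.support) := by
    intro w₁ w₂ h
    exact SimpleGraph.Walk.ext_support h
  exact this.countable

/-- The edges at the origin. -/
def star (d : ℕ) : Set (lattice d).edgeSet := {e | (0 : Fin d → ℤ) ∈ (e : Sym2 (Fin d → ℤ))}

theorem measurable_walkTime [MeasurableSpace Ω] (X : (lattice d).edgeSet → Ω → ℝ)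
    {u v : Fin d → ℤ} (w : (lattice d).Walk u v) (h0 : (0 : Fin d → ℤ) ∉ w.support) :
    Measurable[⨆ e ∈ (star d)ᶜ, MeasurableSpace.comap (X e) inferInstance]
      (fun ω => walkTime X ω w) := by
  induction w with
  | nil => simp only [walkTime_nil]; exact measurable_const
  | @cons u y v h p ih =>
    simp only [walkTime_cons]
    rw [SimpleGraph.Walk.support_cons, List.mem_cons, not_or] at h0
    have hy : (0 : Fin d → ℤ) ≠ y := by
      rintro rfl
      exact h0.2 p.start_mem_support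
    have he : (⟨s(u, y), h⟩ : (lattice d).edgeSet) ∈ (star d)ᶜ := by
      intro h'
      have h'' : (0 : Fin d → ℤ) ∈ s(u, y) := h'
      rw [Sym2.mem_iff] at h''
      rcases h'' with h'' | h''
      · exact h0.1 h''
      · exact hy h''
    have h1 : Measurable[⨆ e ∈ (star d)ᶜ, MeasurableSpace.comap (X e) inferInstance]
        (X ⟨s(u, y), h⟩) := by
      rw [measurable_iff_comap_le]
      exact le_iSup₂_of_le _ he le_rfl
    exact (h1.ennreal_ofReal).add (ih h0.2)

theorem measurable_R [MeasurableSpace Ω] (X : (lattice d).edgeSet → Ω → ℝ) (v : Fin d → ℤ) :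
    Measurable[⨆ e ∈ (star d)ᶜ, MeasurableSpace.comap (X e) inferInstance]
      (fun ω => R X ω v) := by
  unfold R
  refine Measurable.iInf fun y => Measurable.iInf fun w => ?_
  exact measurable_walkTime X w.1 w.2

/-! ### The star is finite -/

theorem star_finite (d : ℕ) : (star d).Finite := by
  have hfin : {y : Fin d → ℤ | ∀ i, y i ∈ Set.Icc (-1 : ℤ) 1}.Finite := by
    have : {y : Fin d → ℤ | ∀ i, y i ∈ Set.Icc (-1 : ℤ) 1} =
        Set.pi Set.univ (fun _ => Set.Icc (-1 : ℤ) 1) := by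
      ext y
      rw [Set.mem_univ_pi]
      exact Iff.rfl
    rw [this]
    exact Set.Finite.pi fun _ => Set.finite_Icc _ _
  have hsub : (fun e : (lattice d).edgeSet => (e : Sym2 (Fin d → ℤ))) '' (star d) ⊆
      (fun y : Fin d → ℤ => s(0, y)) '' {y : Fin d → ℤ | ∀ i, y i ∈ Set.Icc (-1 : ℤ) 1} := by
    rintro _ ⟨⟨e, he⟩, h0, rfl⟩
    have h0' : (0 : Fin d → ℤ) ∈ e := h0
    obtain ⟨y, rfl⟩ := h0'
    refine ⟨y, ?_, rfl⟩
    intro i
    have h1 : (lattice d).Adj 0 y := he
    have h2 : ∑ j, |(0 : Fin d → ℤ) j - y j| = 1 := h1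
    have h3 : |(0 : Fin d → ℤ) i - y i| ≤ 1 := by
      rw [← h2]
      exact Finset.single_le_sum (f := fun j => |(0 : Fin d → ℤ) j - y j|)
        (fun j _ => abs_nonneg _) (Finset.mem_univ i)
    simp only [Pi.zero_apply, zero_sub, abs_neg] at h3
    exact abs_le.1 h3
  exact Set.Finite.of_finite_image ((hfin.image _).subset hsub) Subtype.coe_injective.injOn

theorem mid_ne_zero (e : (lattice d).edgeSet) : mid (e : Sym2 (Fin d → ℤ)) ≠ 0 := by
  obtain ⟨e, he⟩ := e
  induction e using Sym2.ind with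
  | _ x y =>
    intro h
    have hadj : (lattice d).Adj x y := he
    have h2 : ∑ j, |x j - y j| = 1 := hadj
    have h3 : ∀ j, x j + y j = 0 := by
      intro j
      have h4 := congrArg (fun z : E d => z j) h
      simp [mid, toE] at h4
      have h6 : ((x j : ℝ) + y j) = 0 := by linarith
      exact_mod_cast h6
    have h5 : ∑ j, |x j - y j| = 2 * ∑ j, |x j| := by
      rw [Finset.mul_sum]
      refine Finset.sum_congr rfl fun j _ => ?_
      have : y j = - x j := by linarith [h3 j]
      rw [this, sub_neg_eq_add, ← two_mul, abs_mul]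
      simp
    omega

end Pool.Agent.R963.Rate
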