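import Pool.Agent.R963.Rate.Det
import Pool.Agent.R963.Rate.Graph

open Set MeasureTheory ProbabilityTheory Filter Topology
open scoped ENNReal NNReal Pointwise

namespace Pool.Agent.R963.Rate

open Pool.Agent.R963.Star

variable {d : ℕ} {Ω : Type*}

/-- On `E(χ,t₀)`, `|T(0, n e_i) - D(0, n e_i)| ≤ 1` for all large `n`. -/
theorem compare (μ : Seminorm ℝ (E d)) (hμ : ∀ x, μ x = 0 → x = 0) {α : ℝ} (hα : α < 1)
    {f₀ : E d → ℝ} (hf : IsAngular f₀) (X : (lattice d).edgeSet → Ω → ℝ) {χ : ℝ} (hχ : 1 < χ)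
    {t₀ : ℝ} {ω : Ω} (hω : ω ∈ rateEvent μ α f₀ X χ t₀) (i : Fin d) :
    ∀ᶠ n : ℕ in atTop,
      D μ (weight α f₀) 0 (toE (axis i n)) ≤ T X ω (axis i n) + 1 ∧
      T X ω (axis i n) ≤ D μ (weight α f₀) 0 (toE (axis i n)) + 1 := by
  set a : ℝ := 1 - α with ha
  have ha0 : 0 < a := by linarith
  set f : E d → ℝ := weight α f₀ with hfdef
  set z : E d := toE (axis i 1) with hz
  have hz0 : z ≠ 0 := toE_axis_ne i
  have hDpos : 0 < D μ f 0 z := D_pos μ hμ hf hz0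
  -- the outer inclusion
  have hout : ∀ t : ℝ, t₀ ≤ t → 0 < t → ∀ n : ℕ, T X ω (axis i n) ≤ ENNReal.ofReal t →
      D μ f 0 (toE (axis i n)) ≤ ENNReal.ofReal ((1 + t ^ (-χ)) ^ a * t) := by
    intro t ht ht0 n hn
    have h1 := (hω t ht).2
    have h2 : toE (axis i n) ∈ cluster X ω t := ⟨axis i n, hn, fun j => by simp [toE_apply]⟩
    have h3 := h1 h2
    have hp1 : 0 < t ^ (-χ) := Real.rpow_pos_of_pos ht0 _
    rw [mem_smul_shape μ f₀ (by positivity)] at h3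
    rw [Real.mul_rpow (by positivity) (by positivity), ← Real.rpow_mul ht0.le,
      one_div_mul_cancel (by linarith), Real.rpow_one] at h3
    exact h3
  -- the inner inclusion
  have hin : ∀ t : ℝ, t₀ ≤ t → 0 < t → 0 < 1 - t ^ (-χ) → ∀ n : ℕ,
      D μ f 0 (toE (axis i n)) ≤ ENNReal.ofReal ((1 - t ^ (-χ)) ^ a * t) →
      T X ω (axis i n) ≤ ENNReal.ofReal t := by
    intro t ht ht0 ht1 n hn
    have h1 := (hω t ht).1
    have h2 : toE (axis i n) ∈ ((1 - t ^ (-χ)) * t ^ (1 / (1 - α))) • shape μ α f₀ := by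
      rw [mem_smul_shape μ f₀ (by positivity)]
      rw [Real.mul_rpow (by positivity) (by positivity), ← Real.rpow_mul ht0.le,
        one_div_mul_cancel (by linarith), Real.rpow_one]
      exact hn
    obtain ⟨v, hv, hvz⟩ := h1 h2
    have h3 : v = axis i n := by
      ext j
      have h4 := hvz j
      rw [toE_apply] at h4
      by_contra hne
      have h5 : (1 : ℤ) ≤ |axis i n j - v j| := by
        exact Int.one_le_abs (sub_ne_zero.2 fun h => hne h.symm)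
      have h6 : (1 : ℝ) ≤ |(axis i n j : ℝ) - v j| := by exact_mod_cast h5
      linarith
    rwa [h3] at hv
  -- `T → ∞`
  have hDlim : ∀ M : ℝ, ∀ᶠ n : ℕ in atTop, ENNReal.ofReal M < D μ f 0 (toE (axis i n)) := by
    intro M
    obtain ⟨c, hc0, hc⟩ : ∃ c : ℝ, 0 < c ∧ ENNReal.ofReal c ≤ D μ f 0 z := by
      rcases eq_or_ne (D μ f 0 z) ⊤ with h | h
      · exact ⟨1, one_pos, by rw [h]; exact le_top⟩
      · exact ⟨(D μ f 0 z).toReal, ENNReal.toReal_pos hDpos.ne' h, by rw [ENNReal.ofReal_toReal h]⟩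
    have h1 : Tendsto (fun n : ℕ => ((n : ℝ) ^ a) * c) atTop atTop :=
      ((tendsto_rpow_atTop ha0).comp tendsto_natCast_atTop_atTop).atTop_mul_const hc0
    filter_upwards [h1.eventually_gt_atTop (max M 0), eventually_gt_atTop 0] with n hn hn0
    rw [toE_axis, D_nat μ f₀ _ hn0]
    have hn' : (max M 0) < (n : ℝ) ^ a * c := hn
    have hM : M < (n : ℝ) ^ a * c := (le_max_left _ _).trans_lt hn'
    have hM0 : 0 < (n : ℝ) ^ a * c := (le_max_right _ _).trans_lt hn'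
    calc ENNReal.ofReal M < ENNReal.ofReal ((n : ℝ) ^ a * c) := by
          rwa [ENNReal.ofReal_lt_ofReal_iff hM0]
      _ = ENNReal.ofReal ((n : ℝ) ^ a) * ENNReal.ofReal c := ENNReal.ofReal_mul (by positivity)
      _ ≤ ENNReal.ofReal ((n : ℝ) ^ (1 - α)) * D μ f 0 z := by gcongr
  have hTlim : ∀ M : ℝ, ∀ᶠ n : ℕ in atTop, M < (T X ω (axis i n)).toReal := by
    intro M
    set t : ℝ := max (max M t₀) 1 with ht
    have ht0 : 0 < t := zero_lt_one.trans_le (le_max_right _ _)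
    filter_upwards [hDlim ((1 + t ^ (-χ)) ^ a * t)] with n hn
    by_contra hle
    rw [not_lt] at hle
    have h1 : T X ω (axis i n) ≤ ENNReal.ofReal t := by
      rw [← ENNReal.ofReal_toReal (T_axis_ne_top X ω i n)]
      exact ENNReal.ofReal_le_ofReal (hle.trans ((le_max_left _ _).trans (le_max_left _ _)))
    have h2 := hout t ((le_max_right _ _).trans (le_max_left _ _)) ht0 n h1
    exact absurd hn (not_lt.2 h2)
  have hTtop : Tendsto (fun n : ℕ => (T X ω (axis i n)).toReal) atTop atTop :=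
    tendsto_atTop.2 fun M => (hTlim M).mono fun n hn => hn.le
  have hTtop' : Tendsto (fun n : ℕ => (T X ω (axis i n)).toReal - 1 / 2) atTop atTop :=
    tendsto_atTop_add_const_right _ _ hTtop
  filter_upwards [hTtop.eventually (ev_upper (a := a) hχ), hTtop'.eventually (ev_lower (a := a) hχ),
    hTtop.eventually_ge_atTop (max t₀ 1), hTtop'.eventually_ge_atTop (max t₀ 1)] with n h1 h2 h3 h4
  set τ : ℝ := (T X ω (axis i n)).toReal with hτ
  have hTτ : T X ω (axis i n) = ENNReal.ofReal τ :=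
    (ENNReal.ofReal_toReal (T_axis_ne_top X ω i n)).symm
  have hτ1 : 1 ≤ τ := (le_max_right _ _).trans h3
  constructor
  · have h5 := hout τ ((le_max_left _ _).trans h3) (by linarith) n hTτ.le
    calc D μ f 0 (toE (axis i n)) ≤ ENNReal.ofReal ((1 + τ ^ (-χ)) ^ a * τ) := h5
      _ ≤ ENNReal.ofReal (τ + 1) := ENNReal.ofReal_le_ofReal h1
      _ = T X ω (axis i n) + 1 := by
        rw [ENNReal.ofReal_add (by linarith) zero_le_one, ← hTτ, ENNReal.ofReal_one]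
  · have h4' : 1 ≤ τ - 1 / 2 := (le_max_right _ _).trans h4
    have h5 : ¬ (T X ω (axis i n) ≤ ENNReal.ofReal (τ - 1 / 2)) := by
      rw [hTτ, ENNReal.ofReal_le_ofReal_iff (by linarith)]
      linarith
    have h6 : ENNReal.ofReal ((1 - (τ - 1 / 2) ^ (-χ)) ^ a * (τ - 1 / 2)) ≤
        D μ f 0 (toE (axis i n)) := by
      by_contra hlt
      rw [not_le] at hlt
      exact h5 (hin (τ - 1 / 2) ((le_max_left _ _).trans h4) (by linarith) h2.1 n hlt.le)
    calc T X ω (axis i n) = ENNReal.ofReal (τ - 1 / 2 - 1 / 2 + 1) := by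
          rw [hTτ]; congr 1; ring
      _ = ENNReal.ofReal (τ - 1 / 2 - 1 / 2) + 1 := by
          rw [ENNReal.ofReal_add (by linarith) zero_le_one, ENNReal.ofReal_one]
      _ ≤ D μ f 0 (toE (axis i n)) + 1 := by
          gcongr
          exact (ENNReal.ofReal_le_ofReal h2.2).trans h6

/-- The event `{∃ N, ∀ n ≥ N, D(0, n e_i) ≤ R_n + 2}`. -/
def G (μ : E d → ℝ) (α : ℝ) (f₀ : E d → ℝ) (X : (lattice d).edgeSet → Ω → ℝ) (i : Fin d) :
    Set Ω :=
  {ω | ∃ N : ℕ, ∀ n : ℕ, N ≤ n →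
    D μ (weight α f₀) 0 (toE (axis i n)) ≤ R X ω (axis i n) + 2}

theorem axis_ne_zero (i : Fin d) {n : ℕ} (hn : 0 < n) : axis i n ≠ 0 := by
  intro h
  have := congrFun h i
  simp [axis] at this
  omega

theorem sub_left (μ : Seminorm ℝ (E d)) (hμ : ∀ x, μ x = 0 → x = 0) {α : ℝ} (hα : α < 1)
    {f₀ : E d → ℝ} (hf : IsAngular f₀) (X : (lattice d).edgeSet → Ω → ℝ) {χ : ℝ} (hχ : 1 < χ)
    {t₀ : ℝ} {ω : Ω} (hω : ω ∈ rateEvent μ α f₀ X χ t₀) (i : Fin d)
    (hX : ∀ y (h : (lattice d).Adj 0 y), X ⟨s(0, y), h⟩ ω ≤ 1) : ω ∈ G μ α f₀ X i := by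
  obtain ⟨N, hN⟩ := eventually_atTop.1 (compare μ hμ hα hf X hχ hω i)
  refine ⟨N, fun n hn => ?_⟩
  calc D μ (weight α f₀) 0 (toE (axis i n)) ≤ T X ω (axis i n) + 1 := (hN n hn).1
    _ ≤ (1 + R X ω (axis i n)) + 1 := by gcongr; exact T_le X ω _ hX
    _ = R X ω (axis i n) + 2 := by ring

theorem sub_right (μ : Seminorm ℝ (E d)) (hμ : ∀ x, μ x = 0 → x = 0) {α : ℝ} (hα : α < 1)
    {f₀ : E d → ℝ} (hf : IsAngular f₀) (X : (lattice d).edgeSet → Ω → ℝ) {χ : ℝ} (hχ : 1 < χ)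
    {t₀ : ℝ} {ω : Ω} (hω : ω ∈ rateEvent μ α f₀ X χ t₀) (i : Fin d)
    (hX : ∀ y (h : (lattice d).Adj 0 y), 4 ≤ X ⟨s(0, y), h⟩ ω) : ω ∉ G μ α f₀ X i := by
  rintro ⟨N', hN'⟩
  obtain ⟨N, hN⟩ := eventually_atTop.1 (compare μ hμ hα hf X hχ hω i)
  set n : ℕ := max (max N N') 1 with hn
  have h1 := (hN n ((le_max_left _ _).trans (le_max_left _ _))).2
  have h2 := hN' n ((le_max_right _ _).trans (le_max_left _ _))
  have h3 := T_ge X ω hX (axis_ne_zero i (n := n) (by omega))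
  have h4 : R X ω (axis i n) ≠ ⊤ := by
    intro h
    rw [h] at h3
    simp at h3
    exact T_axis_ne_top X ω i n h3
  have h5 : ENNReal.ofReal 4 + R X ω (axis i n) ≤ R X ω (axis i n) + 2 + 1 :=
    h3.trans (h1.trans (by gcongr))
  have h6 : ENNReal.ofReal 4 + R X ω (axis i n) ≤ 3 + R X ω (axis i n) := by
    calc ENNReal.ofReal 4 + R X ω (axis i n) ≤ R X ω (axis i n) + 2 + 1 := h5
      _ = 3 + R X ω (axis i n) := by ring
  rw [ENNReal.add_le_add_iff_right h4] at h6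
  norm_num at h6

theorem measurableSet_G [MeasurableSpace Ω] (μ : E d → ℝ) (α : ℝ) (f₀ : E d → ℝ)
    (X : (lattice d).edgeSet → Ω → ℝ) (i : Fin d) :
    MeasurableSet[⨆ e ∈ (star d)ᶜ, MeasurableSpace.comap (X e) inferInstance]
      (G μ α f₀ X i) := by
  have : G μ α f₀ X i = ⋃ N : ℕ, ⋂ n : ℕ, ⋂ (_ : N ≤ n),
      {ω | D μ (weight α f₀) 0 (toE (axis i n)) ≤ R X ω (axis i n) + 2} := by
    ext ω
    simp only [G, Set.mem_iUnion, Set.mem_iInter]
    exact Iff.rfl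
  rw [this]
  refine MeasurableSet.iUnion fun N => MeasurableSet.iInter fun n => MeasurableSet.iInter fun _ => ?_
  exact @measurableSet_le _ _ _ _ _ (⨆ e ∈ (star d)ᶜ, MeasurableSpace.comap (X e) inferInstance) _ _ _ _ _
    (@measurable_const _ _ _ (_) _) ((measurable_R X (axis i n)).add_const 2)

end Pool.Agent.R963.Rate
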