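import Pool.Agent.R963.Rate.Main

open Set MeasureTheory ProbabilityTheory Filter Topology
open scoped ENNReal NNReal Pointwise

namespace Pool.Agent.R963.Rate

open Pool.Agent.R963.Star

variable {d : ℕ} {Ω : Type*}

theorem expMeasure_Iic_pos {r : ℝ} (hr : 0 < r) {x : ℝ} (hx : 0 < x) :
    0 < expMeasure r (Iic x) := by
  have : IsProbabilityMeasure (expMeasure r) := isProbabilityMeasure_expMeasure hr
  rw [← ofReal_cdf, cdf_expMeasure_eq hr, if_pos hx.le, ENNReal.ofReal_pos, sub_pos]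
  rw [Real.exp_lt_one_iff]
  have := mul_pos hr hx
  linarith

theorem expMeasure_Ioi_pos {r : ℝ} (hr : 0 < r) {x : ℝ} (hx : 0 < x) :
    0 < expMeasure r (Ioi x) := by
  have : IsProbabilityMeasure (expMeasure r) := isProbabilityMeasure_expMeasure hr
  rw [← compl_Iic, prob_compl_eq_one_sub measurableSet_Iic, ← ofReal_cdf, cdf_expMeasure_eq hr,
    if_pos hx.le, tsub_pos_iff_lt, ENNReal.ofReal_lt_one]
  have := Real.exp_pos (-(r * x))
  linarith

/-- `P(E(χ,t₀))` is bounded away from `1`, uniformly in `t₀`, for `χ > 1`. -/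
theorem main (hd : 1 ≤ d) (μ : Seminorm ℝ (E d)) (hμ : ∀ x, μ x = 0 → x = 0) {α : ℝ}
    (hα : α < 1) {f₀ : E d → ℝ} (hf : IsAngular f₀) [MeasurableSpace Ω] (P : Measure Ω)
    [IsProbabilityMeasure P] (X : (lattice d).edgeSet → Ω → ℝ) (hX : IsEdgeTimes α f₀ X P)
    {χ : ℝ} (hχ : 1 < χ) :
    ∃ δ : ℝ, 0 < δ ∧ ∀ t₀ : ℝ, (P (rateEvent μ α f₀ X χ t₀)).toReal ≤ 1 - δ := by
  set i : Fin d := ⟨0, hd⟩ with hi
  have hfin : (star d).Finite := star_finite d
  set S : Finset (lattice d).edgeSet := hfin.toFinset with hS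
  set A : Set Ω := ⋂ e ∈ S, (X e) ⁻¹' Iic 1 with hA
  set B : Set Ω := ⋂ e ∈ S, (X e) ⁻¹' Ioi 4 with hB
  have hrate : ∀ e : (lattice d).edgeSet, 0 < weight α f₀ (mid (e : Sym2 (Fin d → ℤ))) :=
    fun e => weight_pos hf (mid_ne_zero e)
  have hprod : ∀ (U : Set ℝ), MeasurableSet U →
      (∀ e : (lattice d).edgeSet,
        0 < expMeasure (weight α f₀ (mid (e : Sym2 (Fin d → ℤ)))) U) →
      0 < P (⋂ e ∈ S, (X e) ⁻¹' U) := by
    intro U hU hpos
    rw [hX.indep.meas_biInter (fun e _ => ⟨U, hU, rfl⟩)]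
    rw [pos_iff_ne_zero, Finset.prod_ne_zero_iff]
    intro e _
    rw [← Measure.map_apply (hX.measurable e) hU, hX.law e]
    exact (hpos e).ne'
  have hPA : 0 < P A := hprod _ measurableSet_Iic fun e => expMeasure_Iic_pos (hrate e) one_pos
  have hPB : 0 < P B := hprod _ measurableSet_Ioi fun e =>
    expMeasure_Ioi_pos (hrate e) (by norm_num)
  set m : (lattice d).edgeSet → MeasurableSpace Ω :=
    fun e => MeasurableSpace.comap (X e) inferInstance with hm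
  have hm_le : ∀ e, m e ≤ ‹MeasurableSpace Ω› := fun e => (hX.measurable e).comap_le
  have hindep : Indep (⨆ e ∈ star d, m e) (⨆ e ∈ (star d)ᶜ, m e) P :=
    indep_iSup_of_disjoint hm_le hX.indep.iIndep disjoint_compl_right
  have hmeasStar : ∀ U : Set ℝ, MeasurableSet U →
      MeasurableSet[⨆ e ∈ star d, m e] (⋂ e ∈ S, (X e) ⁻¹' U) := by
    intro U hU
    refine Finset.measurableSet_biInter _ fun e he => ?_
    have he' : e ∈ star d := by simpa [hS] using he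
    exact (le_iSup₂_of_le (f := fun e (_ : e ∈ star d) => m e) e he' le_rfl) _ ⟨U, hU, rfl⟩
  have hG : MeasurableSet[⨆ e ∈ (star d)ᶜ, m e] (G μ α f₀ X i) := measurableSet_G μ α f₀ X i
  have hle : (⨆ e ∈ (star d)ᶜ, m e) ≤ ‹MeasurableSpace Ω› := iSup₂_le fun e _ => hm_le e
  have hle' : (⨆ e ∈ star d, m e) ≤ ‹MeasurableSpace Ω› := iSup₂_le fun e _ => hm_le e
  have hGm : MeasurableSet (G μ α f₀ X i) := hle _ hG
  have hAm : MeasurableSet A := hle' _ (hmeasStar _ measurableSet_Iic)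
  have hBm : MeasurableSet B := hle' _ (hmeasStar _ measurableSet_Ioi)
  rw [Indep_iff] at hindep
  have h1 : P (A ∩ (G μ α f₀ X i)ᶜ) = P A * P (G μ α f₀ X i)ᶜ :=
    hindep _ _ (hmeasStar _ measurableSet_Iic) hG.compl
  have h2 : P (B ∩ G μ α f₀ X i) = P B * P (G μ α f₀ X i) :=
    hindep _ _ (hmeasStar _ measurableSet_Ioi) hG
  have hmem : ∀ U : Set ℝ, ∀ ω ∈ ⋂ e ∈ S, (X e) ⁻¹' U, ∀ y (h : (lattice d).Adj 0 y),
      X ⟨s(0, y), h⟩ ω ∈ U := by
    intro U ω hω y h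
    rw [Set.mem_iInter₂] at hω
    have h3 : (⟨s(0, y), h⟩ : (lattice d).edgeSet) ∈ S := by
      rw [hS, Set.Finite.mem_toFinset]
      exact Sym2.mem_mk_left _ _
    exact hω _ h3
  have hsub1 : ∀ t₀ : ℝ, rateEvent μ α f₀ X χ t₀ ⊆ (A ∩ (G μ α f₀ X i)ᶜ)ᶜ := by
    intro t₀ ω hω hω'
    exact hω'.2 (sub_left μ hμ hα hf X hχ hω i fun y h => hmem _ ω hω'.1 y h)
  have hsub2 : ∀ t₀ : ℝ, rateEvent μ α f₀ X χ t₀ ⊆ (B ∩ G μ α f₀ X i)ᶜ := by
    intro t₀ ω hω hω'
    exact (sub_right μ hμ hα hf X hχ hω i fun y h => (hmem _ ω hω'.1 y h).le) hω'.2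
  set a : ℝ := (P A).toReal with ha
  set b : ℝ := (P B).toReal with hb
  set g : ℝ := (P (G μ α f₀ X i)).toReal with hg
  have ha0 : 0 < a := ENNReal.toReal_pos hPA.ne' (measure_ne_top P _)
  have hb0 : 0 < b := ENNReal.toReal_pos hPB.ne' (measure_ne_top P _)
  have hg0 : 0 ≤ g := ENNReal.toReal_nonneg
  have hgc : (P (G μ α f₀ X i)ᶜ).toReal = 1 - g := by
    rw [prob_compl_eq_one_sub hGm, ENNReal.toReal_sub_of_le prob_le_one ENNReal.one_ne_top,
      ENNReal.toReal_one]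
  have hg1 : g ≤ 1 := by
    have : 0 ≤ (P (G μ α f₀ X i)ᶜ).toReal := ENNReal.toReal_nonneg
    linarith
  refine ⟨min a b / 2, by positivity, fun t₀ => ?_⟩
  have h3 : (P (rateEvent μ α f₀ X χ t₀)).toReal ≤ 1 - a * (1 - g) := by
    calc (P (rateEvent μ α f₀ X χ t₀)).toReal ≤ (P (A ∩ (G μ α f₀ X i)ᶜ)ᶜ).toReal :=
          ENNReal.toReal_mono (measure_ne_top P _) (measure_mono (hsub1 t₀))
      _ = 1 - a * (1 - g) := by
        rw [prob_compl_eq_one_sub (hAm.inter hGm.compl),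
          ENNReal.toReal_sub_of_le prob_le_one ENNReal.one_ne_top, h1, ENNReal.toReal_mul, hgc,
          ENNReal.toReal_one]
  have h4 : (P (rateEvent μ α f₀ X χ t₀)).toReal ≤ 1 - b * g := by
    calc (P (rateEvent μ α f₀ X χ t₀)).toReal ≤ (P (B ∩ G μ α f₀ X i)ᶜ).toReal :=
          ENNReal.toReal_mono (measure_ne_top P _) (measure_mono (hsub2 t₀))
      _ = 1 - b * g := by
        rw [prob_compl_eq_one_sub (hBm.inter hGm),
          ENNReal.toReal_sub_of_le prob_le_one ENNReal.one_ne_top, h2, ENNReal.toReal_mul,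
          ENNReal.toReal_one]
  rcases le_total g (1 / 2) with h5 | h5
  · have h6 : min a b ≤ a := min_le_left _ _
    nlinarith
  · have h6 : min a b ≤ b := min_le_right _ _
    nlinarith

/-- For `χ > 1` and every `s > 0`, `t₀^s (1 - P(E(χ,t₀))) → ∞`. -/
theorem diverges (hd : 1 ≤ d) (μ : Seminorm ℝ (E d)) (hμ : ∀ x, μ x = 0 → x = 0) {α : ℝ}
    (hα : α < 1) {f₀ : E d → ℝ} (hf : IsAngular f₀) [MeasurableSpace Ω] (P : Measure Ω)
    [IsProbabilityMeasure P] (X : (lattice d).edgeSet → Ω → ℝ) (hX : IsEdgeTimes α f₀ X P)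
    {χ : ℝ} (hχ : 1 < χ) {s : ℝ} (hs : 0 < s) :
    Tendsto (fun t₀ : ℝ => t₀ ^ s * (1 - (P (rateEvent μ α f₀ X χ t₀)).toReal)) atTop atTop := by
  obtain ⟨δ, hδ, h⟩ := main hd μ hμ hα hf P X hX hχ
  have h1 : Tendsto (fun t₀ : ℝ => t₀ ^ s * δ) atTop atTop :=
    (tendsto_rpow_atTop hs).atTop_mul_const hδ
  refine tendsto_atTop_mono' _ ?_ h1
  filter_upwards [eventually_ge_atTop 0] with t₀ ht
  have h2 := h t₀
  gcongr
  linarith

theorem not_rateHolds (hd : 1 ≤ d) (μ : Seminorm ℝ (E d)) (hμ : ∀ x, μ x = 0 → x = 0) {α : ℝ}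
    (hα : α < 1) {f₀ : E d → ℝ} (hf : IsAngular f₀) [MeasurableSpace Ω] (P : Measure Ω)
    [IsProbabilityMeasure P] (X : (lattice d).edgeSet → Ω → ℝ) (hX : IsEdgeTimes α f₀ X P)
    {χ : ℝ} (hχ : 1 < χ) : ¬ RateHolds μ α f₀ X P χ := by
  intro h
  exact not_tendsto_atTop_of_tendsto_nhds (h 1 one_pos) (diverges hd μ hμ hα hf P X hX hχ one_pos)

/-- The model exists. -/
theorem exists_model {α : ℝ} {f₀ : E d → ℝ} (hf : IsAngular f₀) :
    ∃ P : Measure ((lattice d).edgeSet → ℝ), IsProbabilityMeasure P ∧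
      IsEdgeTimes α f₀ (fun e x => x e) P := by
  have hprob : ∀ e : (lattice d).edgeSet,
      IsProbabilityMeasure (expMeasure (weight α f₀ (mid (e : Sym2 (Fin d → ℤ))))) :=
    fun e => isProbabilityMeasure_expMeasure (weight_pos hf (mid_ne_zero e))
  refine ⟨Measure.infinitePi fun e : (lattice d).edgeSet =>
    expMeasure (weight α f₀ (mid (e : Sym2 (Fin d → ℤ)))), inferInstance, ?_, ?_, ?_⟩
  · intro e
    exact measurable_pi_apply e
  · exact iIndepFun_infinitePi (X := fun _ x => x) (fun _ => measurable_id)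
  · intro e
    exact Measure.infinitePi_map_eval _ e

end Pool.Agent.R963.Rate
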